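import Pool.Agent.MWN.StmtsA
import Pool.Agent.MWS.StmtsA

/-!
# Squad MWN, row NPE: the pentagon (Lemma N)
-/

set_option autoImplicit false

namespace Pool.Agent.MWN.H62

open Pool.Agent.Helper14_MV Pool.Agent.Helper2_MV Pool.Agent.MVO Pool.Agent.MWL Pool.Agent.MWS
  Pool.Agent.MWF

theorem blk01 {k : ℕ} {B : ℕ → List ℕ} (h : Two01 k B) : BlkOk k B := by
  intro j hj c hc hs
  have h1 := hs.1
  rcases h j hj c hc with h2 | h2 <;> omega

theorem wd_two (k i : ℕ) (a b : ℕ → ℕ) (st : Bool) : Two01 k (wd i a b st) := by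
  intro j _ c hc
  unfold wd at hc
  split_ifs at hc <;> rw [List.mem_append] at hc <;> rcases hc with hc | hc <;>
    have := List.eq_of_mem_replicate hc <;> tauto

theorem wd_count (i : ℕ) (a b : ℕ → ℕ) (st : Bool) (j c : ℕ) :
    (wd i a b st j).count c = (if c = 0 then a j else 0) + (if c = 1 then b j else 0) := by
  have h0 : ∀ n : ℕ, (List.replicate n 0).count c = if c = 0 then n else 0 := by
    intro n
    rw [List.count_replicate]
    by_cases h : c = 0
    · subst h; simp
    · rw [if_neg h, if_neg]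
      simpa using fun h' => h h'.symm
  have h1 : ∀ n : ℕ, (List.replicate n 1).count c = if c = 1 then n else 0 := by
    intro n
    rw [List.count_replicate]
    by_cases h : c = 1
    · subst h; simp
    · rw [if_neg h, if_neg]
      simpa using fun h' => h h'.symm
  unfold wd
  split_ifs <;> simp only [List.count_append, h0, h1] <;> split_ifs <;> omega

theorem wd_ty0 (i : ℕ) (a b : ℕ → ℕ) (st : Bool) : ty (wd i a b st) 0 = a := by
  funext j
  unfold ty
  rw [wd_count]
  simp

theorem wd_ty1 (i : ℕ) (a b : ℕ → ℕ) (st : Bool) : ty (wd i a b st) 1 = b := by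
  funext j
  unfold ty
  rw [wd_count]
  simp

theorem nga_wd (hNga : NgaStmt) {β : FIC} (hcap : CapP β) (k i : ℕ) (a' b' a b : ℕ → ℕ) (st st' : Bool)
    (ha : 2 ≤ deg k a) (hb : 2 ≤ deg k b) :
    RR (gaml (PT β k a' b')) (asm k (wd i a b st)) (asm k (wd i a b st')) := by
  refine hNga β hcap k k a' b' _ _ (wd_two k i a b st) (wd_two k i a b st') ?_ ?_ ?_
  · intro j _ c
    rw [wd_count, wd_count]
  · rw [wd_ty0]
    exact ha
  · rw [wd_ty1]
    exact hb

/-- the change of the types -/
theorem chk_wd (hChk : MWS.ChkStmt) (σ : FIC) (k i : ℕ) (a a' b b' : ℕ → ℕ) (st : Bool)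
    (ha : L1 σ k a a') (hb : L1 σ k b b') :
    RR σ (asm k (wd i a b st)) (asm k (wd i a' b' st)) := by
  have e0 : ∀ x y : ℕ → ℕ, wd i x y st = fun j =>
      (if j = i ∧ st = true then List.replicate (y j) 1 else []) ++ List.replicate (x j) 0 ++
        (if j = i ∧ st = true then [] else List.replicate (y j) 1) := by
    intro x y
    funext j
    unfold wd
    split_ifs <;> simp
  have e1 : ∀ x y : ℕ → ℕ, wd i x y st = fun j =>
      (if j = i ∧ st = true then [] else List.replicate (x j) 0) ++ List.replicate (y j) 1 ++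
        (if j = i ∧ st = true then List.replicate (x j) 0 else []) := by
    intro x y
    funext j
    unfold wd
    split_ifs <;> simp
  have h1 : RR σ (asm k (wd i a b st)) (asm k (wd i a' b st)) := by
    rw [e0 a b, e0 a' b]
    exact hChk σ k a a' 0 _ _ ha
  have h2 : RR σ (asm k (wd i a' b st)) (asm k (wd i a' b' st)) := by
    rw [e1 a' b, e1 a' b']
    exact hChk σ k b b' 1 _ _ hb
  exact σ.trans h1 h2

theorem pt_wd (β : FIC) (k i : ℕ) (a b : ℕ → ℕ) (st : Bool) : PT β k a b (asm k (wd i a b st)) := by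
  have f0 : ∀ n : ℕ, (List.replicate n 0).filter (fun c => decide (c ≠ 1)) = List.replicate n 0 := by
    intro n
    rw [List.filter_eq_self]
    intro c hc
    rw [List.eq_of_mem_replicate hc]
    decide
  have f1 : ∀ n : ℕ, (List.replicate n 1).filter (fun c => decide (c ≠ 1)) = [] := by
    intro n
    rw [List.filter_eq_nil_iff]
    intro c hc
    rw [List.eq_of_mem_replicate hc]
    decide
  have g0 : ∀ n : ℕ, (List.replicate n 0).filter (fun c => decide (c ≠ 0)) = [] := by
    intro n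
    rw [List.filter_eq_nil_iff]
    intro c hc
    rw [List.eq_of_mem_replicate hc]
    decide
  have g1 : ∀ n : ℕ, (List.replicate n 1).filter (fun c => decide (c ≠ 0)) = List.replicate n 1 := by
    intro n
    rw [List.filter_eq_self]
    intro c hc
    rw [List.eq_of_mem_replicate hc]
    decide
  constructor
  · rw [asm_filter _ (by
      intro c h1 _
      rw [decide_eq_true_iff]
      omega)]
    have : (fun j => (wd i a b st j).filter (fun c => decide (c ≠ 1)))
        = fun j => List.replicate (a j) 0 := by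
      funext j
      unfold wd
      split_ifs <;> rw [List.filter_append, f0, f1] <;> simp
    rw [this]
    exact RR.refl _
  · rw [asm_filter _ (by
      intro c h1 _
      rw [decide_eq_true_iff]
      omega)]
    have : (fun j => (wd i a b st j).filter (fun c => decide (c ≠ 0)))
        = fun j => List.replicate (b j) 1 := by
      funext j
      unfold wd
      split_ifs <;> rw [List.filter_append, g0, g1] <;> simp
    rw [this]
    exact RR.refl _

theorem beta_le (β : FIC) (k : ℕ) (a b : ℕ → ℕ) : β ≤ gaml (PT β k a b) := by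
  refine le_gaml ?_
  rintro u v huv ⟨h1, h2⟩
  exact ⟨β.trans (RR.symm (RR.filter _ huv)) h1, β.trans (RR.symm (RR.filter _ huv)) h2⟩

/-- a congruence preserves the property -/
theorem keepP (hNgm : NgmStmt) {β : FIC} (hcap : CapP β) (hnc : NC2 β) (k i : ℕ)
    (A B : ℕ → Cd) (S : List ℕ → Prop) (a b : ℕ → ℕ)
    (hA : ∀ c, L1 β k a c → Sat k A c) (hB : ∀ c, L1 β k b c → Sat k B c) (hi : i ≤ k)
    {x y : List ℕ} (hxy : RR (LC k A B S i) x y) (hg : RR (gaml (PT β k a b)) x y)
    (hx : PT β k a b x ∧ ∃ W, x = asm k W ∧ Two01 k W ∧ S (W i)) :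
    PT β k a b y ∧ ∃ W, y = asm k W ∧ Two01 k W ∧ S (W i) := by
  obtain ⟨hPT, W, hW, hW2, hWS⟩ := hx
  obtain ⟨W0, hW0, hW02, hL0, hL1⟩ := hNgm β hcap hnc k a b x hPT
  have hu := uniq (blk01 hW2) (blk01 hW02) (by rw [← hW, ← hW0]) i hi
  have hLG : LG k A B S i x := by
    refine ⟨W0, hW0, hW02, hA _ (β.symm hL0), hB _ (β.symm hL1), ?_⟩
    rw [← hu]
    exact hWS
  obtain ⟨W', h1, h2, -, -, h5⟩ := (gaml_keep hxy).1 hLG
  exact ⟨(gaml_keep hg).1 hPT, W', h1, h2, h5⟩

theorem npe (hChk : MWS.ChkStmt) (hNga : NgaStmt) (hNgm : NgmStmt) : NpeStmt := by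
  intro β hcap hnc hmod k i A1 B1 A2 B2 S st a a' b b' hi hle1 hle2 ha ha' hb hb' hLa hLb hρ hA hB hS
  have hΓ : β ≤ gaml (PT β k a' b') := beta_le β k a' b'
  have hP := pent (β := β) (ρ := FIC.inf (LC k A1 B1 S i) (gaml (PT β k a' b')))
    (σ := LC k A2 B2 S i) (τ := gaml (PT β k a' b')) hmod (FIC.le_inf hle1 hΓ) hle2 hΓ
    (FIC.inf_le_right _ _)
    (P := fun w => PT β k a' b' w ∧ ∃ W, w = asm k W ∧ Two01 k W ∧ S (W i))
    (fun x y hxy hx => keepP hNgm hcap hnc k i A1 B1 S a' b' (fun c hc => (hA c hc).1)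
      (fun c hc => (hB c hc).1) hi hxy.1 hxy.2 hx)
    (fun x y hxy hg hx => keepP hNgm hcap hnc k i A2 B2 S a' b' (fun c hc => (hA c hc).2)
      (fun c hc => (hB c hc).2) hi hxy hg hx)
    (u := asm k (wd i a' b' st)) (v := asm k (wd i a' b' (!st)))
    (by
      have s1 : RR (FIC.sup (FIC.inf (LC k A1 B1 S i) (gaml (PT β k a' b'))) (LC k A2 B2 S i))
          (asm k (wd i a' b' st)) (asm k (wd i a b st)) :=
        FIC.le_sup_right _ _ _ _
          (RR.symm (chk_wd hChk (LC k A2 B2 S i) k i a a' b b' st hLa hLb))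
      have s2 : RR (FIC.sup (FIC.inf (LC k A1 B1 S i) (gaml (PT β k a' b'))) (LC k A2 B2 S i))
          (asm k (wd i a b st)) (asm k (wd i a b (!st))) :=
        FIC.le_sup_left _ _ _ _ ⟨hρ, nga_wd hNga hcap k i a' b' a b st (!st) ha hb⟩
      have s3 : RR (FIC.sup (FIC.inf (LC k A1 B1 S i) (gaml (PT β k a' b'))) (LC k A2 B2 S i))
          (asm k (wd i a b (!st))) (asm k (wd i a' b' (!st))) :=
        FIC.le_sup_right _ _ _ _ (chk_wd hChk (LC k A2 B2 S i) k i a a' b b' (!st) hLa hLb)
      exact FIC.trans _ (FIC.trans _ s1 s2) s3)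
    (nga_wd hNga hcap k i a' b' a' b' st (!st) ha' hb')
    ⟨pt_wd β k i a' b' st, wd i a' b' st, rfl, wd_two k i a' b' st, hS⟩
  obtain ⟨-, W, hW, hW2, hWS⟩ := hP
  have hu := uniq (blk01 (wd_two k i a' b' (!st))) (blk01 hW2) hW i hi
  rw [hu]
  exact hWS

end Pool.Agent.MWN.H62
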